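import Mathlib

namespace Pool.Agent.Results.MP_aac8f2_co.CompleteFactor

open SimpleGraph

/-- One cup stacking move `u ↦ v`: all cups of `u` are put on `v`; allowed when both vertices carry a
cup and the distance from `u` to `v` is the number of cups on `u`. -/
def Move {V : Type} [DecidableEq V] (G : SimpleGraph V) (C C' : V → ℕ) : Prop :=
  ∃ u v, 1 ≤ C u ∧ 1 ≤ C v ∧ G.dist u v = C u ∧
    C' = fun w => if w = u then 0 else if w = v then C u + C v else C w

/-- `G` is `r`-stackable: some finite sequence of moves leads from one cup on every vertex to all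
cups on `r`. -/
def RStackable {V : Type} [Fintype V] [DecidableEq V] (G : SimpleGraph V) (r : V) : Prop :=
  Relation.ReflTransGen (Move G) (fun _ => 1) (fun w => if w = r then Fintype.card V else 0)

/-- `G` is stackable: it is `r`-stackable for every vertex `r`. -/
def Stackable {V : Type} [Fintype V] [DecidableEq V] (G : SimpleGraph V) : Prop :=
  ∀ r, RStackable G r

section star
variable {W : Type} [Fintype W] [DecidableEq W] (G : SimpleGraph W) (r : W) (f : W → W)

/-- The state after the groups with centre in `S` have been moved to the root. -/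
def St (S : Finset W) : W → ℕ := fun w =>
  if w = r then 1 + (Finset.univ.filter (fun x => x ≠ r ∧ f x ∈ S)).card
  else if f w ∈ S then 0 else 1

/-- Intermediate state: members `T` of the group of `c` have been moved to `c`. -/
def Im (S : Finset W) (c : W) (T : Finset W) : W → ℕ := fun w =>
  if w ∈ T then 0 else if w = c then 1 + T.card else St r f S w

theorem star (h1 : ∀ v, v ≠ r → f v ≠ r) (h2 : ∀ v, v ≠ r → f (f v) = f v)
    (h3 : ∀ v, v ≠ r → f v ≠ v → G.dist v (f v) = 1)
    (h4 : ∀ c, c ≠ r → f c = c →
      (Finset.univ.filter (fun x => x ≠ r ∧ f x = c)).card = G.dist c r) :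
    RStackable G r := by
  -- collecting one group
  have key : ∀ S : Finset W, (∀ c ∈ S, c ≠ r ∧ f c = c) →
      Relation.ReflTransGen (Move G) (fun _ => 1) (St r f S) := by
    intro S
    induction S using Finset.induction_on with
    | empty =>
      intro _
      have : St r f (∅ : Finset W) = fun _ => 1 := by
        funext w; simp [St]
      rw [this]
    | insert c S hc ih =>
      intro hS
      have hSc := hS c (Finset.mem_insert_self _ _)
      have ih' := ih (fun d hd => hS d (Finset.mem_insert_of_mem hd))
      refine ih'.trans ?_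
      -- first collect at c
      have col : ∀ T : Finset W, (∀ x ∈ T, x ≠ r ∧ f x = c ∧ x ≠ c) →
          Relation.ReflTransGen (Move G) (St r f S) (Im r f S c T) := by
        intro T
        induction T using Finset.induction_on with
        | empty =>
          intro _
          have : Im r f S c ∅ = St r f S := by
            funext w
            simp only [Im, Finset.notMem_empty, if_false, Finset.card_empty]
            split_ifs with h
            · subst h
              simp [St, hSc.1, hSc.2, hc]
            · rfl
          rw [this]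
        | insert x T hx ihT =>
          intro hT
          have hxx := hT x (Finset.mem_insert_self _ _)
          refine (ihT (fun d hd => hT d (Finset.mem_insert_of_mem hd))).tail ?_
          have hcT : c ∉ T := fun h => (hT c (Finset.mem_insert_of_mem h)).2.2 rfl
          have e1 : Im r f S c T x = 1 := by
            simp [Im, hx, hxx.2.2, St, hxx.1, hxx.2.1, hc]
          have e2 : Im r f S c T c = 1 + T.card := by
            simp [Im, hcT]
          refine ⟨x, c, by omega, by omega, ?_, ?_⟩
          · rw [e1]
            have := h3 x hxx.1 (by rw [hxx.2.1]; exact fun h => hxx.2.2 h.symm)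
            rwa [hxx.2.1] at this
          · funext w
            rw [e1, e2]
            simp only [Im, Finset.mem_insert, Finset.card_insert_of_notMem hx]
            by_cases hw1 : w = x
            · simp [hw1]
            · by_cases hw2 : w = c
              · subst hw2
                simp [hw1, hcT]
                ring
              · simp [hw1, hw2]
      set A := Finset.univ.filter (fun x => x ≠ r ∧ f x = c) with hA
      have hcA : c ∈ A := by simp [hA, hSc.1, hSc.2]
      have colA := col (A.erase c) (by
        intro x hx
        rw [Finset.mem_erase, hA, Finset.mem_filter] at hx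
        exact ⟨hx.2.2.1, hx.2.2.2, hx.1⟩)
      refine colA.tail ?_
      have hcard : (A.erase c).card + 1 = A.card := Finset.card_erase_add_one hcA
      have hd : A.card = G.dist c r := h4 c hSc.1 hSc.2
      have e1 : Im r f S c (A.erase c) c = A.card := by
        simp only [Im, Finset.notMem_erase, if_false, if_true]
        omega
      have hrA : r ∉ A.erase c := by simp [hA]
      have e2 : Im r f S c (A.erase c) r
          = 1 + (Finset.univ.filter (fun x => x ≠ r ∧ f x ∈ S)).card := by
        simp only [Im, hrA, if_false, St, if_true]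
        rw [if_neg (fun h => hSc.1 h.symm)]
      refine ⟨c, r, by rw [e1]; omega, by rw [e2]; omega, by rw [e1, hd], ?_⟩
      have hsplit : (Finset.univ.filter (fun x => x ≠ r ∧ f x ∈ insert c S)).card
          = A.card + (Finset.univ.filter (fun x => x ≠ r ∧ f x ∈ S)).card := by
        rw [hA, ← Finset.card_union_of_disjoint]
        · congr 1
          ext x
          simp only [Finset.mem_filter, Finset.mem_univ, true_and, Finset.mem_insert,
            Finset.mem_union]
          tauto
        · rw [Finset.disjoint_left]
          intro x hx hx'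
          simp only [Finset.mem_filter, Finset.mem_univ, true_and] at hx hx'
          exact hc (hx.2 ▸ hx'.2)
      funext w
      rw [e1, e2]
      by_cases hw1 : w = c
      · subst hw1
        simp [St, hSc.1, hSc.2]
      · by_cases hw2 : w = r
        · subst hw2
          simp only [St, if_true, if_neg hw1]
          rw [hsplit]; ring
        · simp only [hw1, hw2, if_false, St, Im, Finset.mem_erase, ne_eq, not_false_eq_true,
            true_and, hA, Finset.mem_filter, Finset.mem_univ, Finset.mem_insert]
          by_cases h5 : f w = c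
          · simp [h5]
          · simp [h5]
  set S := Finset.univ.filter (fun c => c ≠ r ∧ f c = c) with hS
  have hfin := key S (fun c hc => by
    rw [hS, Finset.mem_filter] at hc
    exact hc.2)
  have : St r f S = fun w => if w = r then Fintype.card W else 0 := by
    funext w
    by_cases hw : w = r
    · subst hw
      simp only [St, if_true]
      have : (Finset.univ.filter (fun x => x ≠ w ∧ f x ∈ S)) = Finset.univ.erase w := by
        ext x
        simp only [Finset.mem_filter, Finset.mem_univ, true_and, Finset.mem_erase, and_true, hS]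
        constructor
        · exact fun h => h.1
        · exact fun h => ⟨h, h1 x h, h2 x h⟩
      rw [this, Finset.card_erase_of_mem (Finset.mem_univ _), Finset.card_univ]
      have : 0 < Fintype.card W := Fintype.card_pos_iff.mpr ⟨w⟩
      omega
    · have : f w ∈ S := by
        rw [hS, Finset.mem_filter]
        exact ⟨Finset.mem_univ _, h1 w hw, h2 w hw⟩
      simp [St, hw, this]
  rw [this] at hfin
  exact hfin

end star

/-- A finite set whose size is a multiple of `K` splits into classes of size `K`. -/
theorem part {α : Type} [DecidableEq α] (K : ℕ) (hK : 1 ≤ K) : ∀ (n : ℕ) (F : Finset α),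
    F.card = n → K ∣ n →
    ∃ φ : α → α, (∀ x ∈ F, φ x ∈ F ∧ φ (φ x) = φ x) ∧
      (∀ c ∈ F, φ c = c → (F.filter (fun x => φ x = c)).card = K) := by
  intro n
  induction n using Nat.strong_induction_on with
  | _ n ih =>
    intro F hF hd
    by_cases h0 : n = 0
    · subst h0
      rw [Finset.card_eq_zero] at hF
      subst hF
      exact ⟨id, by simp, by simp⟩
    have hle : K ≤ F.card := by
      rw [hF]; exact Nat.le_of_dvd (Nat.pos_of_ne_zero h0) hd
    obtain ⟨B, hBF, hBK⟩ := Finset.exists_subset_card_eq hle
    have hBne : B.Nonempty := Finset.card_pos.mp (by omega)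
    obtain ⟨b, hb⟩ := hBne
    obtain ⟨φ, h1, h2⟩ := ih (n - K) (by omega) (F \ B)
      (by rw [Finset.card_sdiff_of_subset hBF]; omega) (Nat.dvd_sub hd (dvd_refl K))
    refine ⟨fun x => if x ∈ B then b else φ x, ?_, ?_⟩
    · intro x hx
      by_cases hxB : x ∈ B
      · simp only [hxB, if_true, hb]
        exact ⟨hBF hb, trivial⟩
      · have hx' := h1 x (Finset.mem_sdiff.mpr ⟨hx, hxB⟩)
        have hnB : φ x ∉ B := (Finset.mem_sdiff.mp hx'.1).2
        simp only [hxB, if_false, hnB]
        exact ⟨(Finset.mem_sdiff.mp hx'.1).1, hx'.2⟩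
    · intro c hc hcc
      by_cases hcB : c ∈ B
      · simp only [hcB, if_true] at hcc
        subst hcc
        rw [← hBK]
        congr 1
        ext x
        simp only [Finset.mem_filter]
        constructor
        · rintro ⟨hx, hx2⟩
          by_contra hxB
          simp only [hxB, if_false] at hx2
          have hx' := h1 x (Finset.mem_sdiff.mpr ⟨hx, hxB⟩)
          rw [hx2] at hx'
          exact (Finset.mem_sdiff.mp hx'.1).2 hb
        · intro hx
          exact ⟨hBF hx, by simp [hx]⟩
      · simp only [hcB, if_false] at hcc
        have := h2 c (Finset.mem_sdiff.mpr ⟨hc, hcB⟩) hcc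
        rw [← this]
        congr 1
        ext x
        simp only [Finset.mem_filter, Finset.mem_sdiff]
        constructor
        · rintro ⟨hx, hx2⟩
          by_cases hxB : x ∈ B
          · simp only [hxB, if_true] at hx2
            exact absurd (hx2 ▸ hb) hcB
          · simp only [hxB, if_false] at hx2
            exact ⟨⟨hx, hxB⟩, hx2⟩
        · rintro ⟨⟨hx, hxB⟩, hx2⟩
          exact ⟨hx, by simp [hxB, hx2]⟩

theorem fibAux (m k : ℕ) (s b : Fin m) (B : Finset (Fin m)) (hs : s ∈ B) (hb : b ∈ B)
    (hB : B.card = if b = s then k else k + 1) (hd : (k + 1) ∣ (m - B.card)) :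
    ∃ φ : Fin m → Fin m, (∀ x, φ (φ x) = φ x) ∧
      (∀ c, φ c = c →
        (Finset.univ.filter (fun x => φ x = c)).card = if c = s then k else k + 1) := by
  obtain ⟨φ, h1, h2⟩ := part (k + 1) (by omega) (m - B.card) (Finset.univ \ B)
    (by rw [Finset.card_sdiff_of_subset (Finset.subset_univ _), Finset.card_univ, Fintype.card_fin])
    hd
  refine ⟨fun x => if x ∈ B then b else φ x, ?_, ?_⟩
  · intro x
    by_cases hxB : x ∈ B
    · simp only [hxB, if_true, hb]
    · have hx' := h1 x (Finset.mem_sdiff.mpr ⟨Finset.mem_univ _, hxB⟩)
      have hnB : φ x ∉ B := (Finset.mem_sdiff.mp hx'.1).2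
      simp only [hxB, if_false, hnB]
      exact hx'.2
  · intro c hcc
    by_cases hcB : c ∈ B
    · simp only [hcB, if_true] at hcc
      subst hcc
      rw [← hB]
      congr 1
      ext x
      simp only [Finset.mem_filter, Finset.mem_univ, true_and]
      constructor
      · intro hx2
        by_contra hxB
        simp only [hxB, if_false] at hx2
        have hx' := h1 x (Finset.mem_sdiff.mpr ⟨Finset.mem_univ _, hxB⟩)
        rw [hx2] at hx'
        exact (Finset.mem_sdiff.mp hx'.1).2 hb
      · intro hx
        simp [hx]
    · simp only [hcB, if_false] at hcc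
      have hcs : c ≠ s := fun h => hcB (h ▸ hs)
      rw [if_neg hcs]
      have := h2 c (Finset.mem_sdiff.mpr ⟨Finset.mem_univ _, hcB⟩) hcc
      rw [← this]
      congr 1
      ext x
      simp only [Finset.mem_filter, Finset.mem_sdiff, Finset.mem_univ, true_and]
      constructor
      · intro hx2
        by_cases hxB : x ∈ B
        · simp only [hxB, if_true] at hx2
          exact absurd (hx2 ▸ hb) hcB
        · simp only [hxB, if_false] at hx2
          exact ⟨hxB, hx2⟩
      · rintro ⟨hxB, hx2⟩
        simp [hxB, hx2]

/-- The classes inside one copy of the complete graph. -/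
theorem fib (m k : ℕ) (hk : 1 ≤ k) (s : Fin m) (h : m % (k + 1) = 0 ∨ m % (k + 1) = k) :
    ∃ φ : Fin m → Fin m, (∀ x, φ (φ x) = φ x) ∧
      (∀ c, φ c = c →
        (Finset.univ.filter (fun x => φ x = c)).card = if c = s then k else k + 1) := by
  have hm : 0 < m := lt_of_le_of_lt (Nat.zero_le _) s.2
  rcases h with h | h
  · have hdm : (k + 1) ∣ m := Nat.dvd_of_mod_eq_zero h
    have hle : k + 1 ≤ m := Nat.le_of_dvd hm hdm
    obtain ⟨B, hsB, _, hBc⟩ := Finset.exists_subsuperset_card_eq
      (s := ({s} : Finset (Fin m))) (t := Finset.univ) (n := k + 1) (Finset.subset_univ _)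
      (by simp) (by rw [Finset.card_univ, Fintype.card_fin]; exact hle)
    have hs : s ∈ B := hsB (Finset.mem_singleton_self s)
    have hne : (B.erase s).Nonempty := by
      rw [← Finset.card_pos, Finset.card_erase_of_mem hs]; omega
    obtain ⟨b, hb⟩ := hne
    rw [Finset.mem_erase] at hb
    refine fibAux m k s b B hs hb.2 (by rw [if_neg hb.1, hBc]) ?_
    rw [hBc]
    exact Nat.dvd_sub hdm (dvd_refl _)
  · have hle : k ≤ m := by
      calc k = m % (k + 1) := h.symm
        _ ≤ m := Nat.mod_le _ _
    obtain ⟨B, hsB, _, hBc⟩ := Finset.exists_subsuperset_card_eq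
      (s := ({s} : Finset (Fin m))) (t := Finset.univ) (n := k) (Finset.subset_univ _)
      (by simpa using hk) (by rw [Finset.card_univ, Fintype.card_fin]; exact hle)
    have hs : s ∈ B := hsB (Finset.mem_singleton_self s)
    refine fibAux m k s s B hs hs (by rw [if_pos rfl, hBc]) ?_
    rw [hBc]
    have := Nat.dvd_sub_mod (n := k + 1) m
    rwa [h] at this

theorem dist_box {V : Type} (G : SimpleGraph V) (hG : G.Connected) {m : ℕ} (x y : V × Fin m) :
    (G □ (⊤ : SimpleGraph (Fin m))).dist x y = G.dist x.1 y.1 + if x.2 = y.2 then 0 else 1 := by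
  have : Nonempty (Fin m) := ⟨x.2⟩
  have hT : (⊤ : SimpleGraph (Fin m)).Connected := connected_top
  have hB := hG.boxProd hT
  have key := edist_boxProd (G := G) (H := (⊤ : SimpleGraph (Fin m))) x y
  rw [← (hB.preconnected x y).coe_dist_eq_edist, ← (hG.preconnected _ _).coe_dist_eq_edist,
    ← (hT.preconnected _ _).coe_dist_eq_edist] at key
  have key' : (G □ (⊤ : SimpleGraph (Fin m))).dist x y
      = G.dist x.1 y.1 + (⊤ : SimpleGraph (Fin m)).dist x.2 y.2 := by exact_mod_cast key
  rw [key']
  congr 1
  split_ifs with h
  · rw [h]; exact dist_self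
  · exact dist_eq_one_iff_adj.mpr (by simpa using h)

theorem main {V : Type} [Fintype V] [DecidableEq V] (G : SimpleGraph V) (hG : G.Connected) (m : ℕ)
    (h : ∀ u v, u ≠ v → m % (G.dist u v + 1) = 0 ∨ m % (G.dist u v + 1) = G.dist u v) :
    Stackable (G □ (⊤ : SimpleGraph (Fin m))) := by
  intro r
  obtain ⟨r0, s⟩ := r
  have hφ : ∀ g : V, ∃ φ : Fin m → Fin m, g ≠ r0 → (∀ x, φ (φ x) = φ x) ∧
      (∀ c, φ c = c → (Finset.univ.filter (fun x => φ x = c)).card
        = if c = s then G.dist g r0 else G.dist g r0 + 1) := by
    intro g
    by_cases hg : g = r0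
    · exact ⟨id, fun hh => absurd hg hh⟩
    · obtain ⟨φ, hφ⟩ := fib m (G.dist g r0) (hG.pos_dist_of_ne hg) s (h g r0 hg)
      exact ⟨φ, fun _ => hφ⟩
  choose φ hφ using hφ
  refine star (G □ (⊤ : SimpleGraph (Fin m))) (r0, s)
    (fun p => if p.1 = r0 then p else (p.1, φ p.1 p.2)) ?_ ?_ ?_ ?_
  · rintro ⟨g, x⟩ hv
    by_cases hg : g = r0
    · simpa [hg] using hv
    · simp [hg]
  · rintro ⟨g, x⟩ _
    by_cases hg : g = r0
    · simp [hg]
    · simp [hg, (hφ g hg).1 x]
  · rintro ⟨g, x⟩ _ hne
    by_cases hg : g = r0
    · simp [hg] at hne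
    · simp only [hg, if_false] at hne ⊢
      rw [dist_box G hG]
      have : x ≠ φ g x := fun hh => hne (by rw [← hh])
      simp [this]
  · rintro ⟨g, c⟩ hne hcc
    rw [dist_box G hG]
    by_cases hg : g = r0
    · subst hg
      have hcs : c ≠ s := fun hh => hne (by rw [hh])
      have : (Finset.univ.filter (fun x : V × Fin m => x ≠ (g, s) ∧
          (if x.1 = g then x else (x.1, φ x.1 x.2)) = (g, c))) = {(g, c)} := by
        ext ⟨a, b⟩
        simp only [Finset.mem_filter, Finset.mem_univ, true_and, Finset.mem_singleton]
        constructor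
        · rintro ⟨_, hx⟩
          by_cases ha : a = g
          · simpa [ha] using hx
          · simp only [ha, if_false, Prod.mk.injEq, false_and] at hx
        · intro hx
          rw [Prod.mk.injEq] at hx
          obtain ⟨rfl, rfl⟩ := hx
          exact ⟨hne, by simp⟩
      rw [this]
      simp [hcs]
    · simp only [hg, if_false, Prod.mk.injEq, true_and] at hcc
      have : (Finset.univ.filter (fun x : V × Fin m => x ≠ (r0, s) ∧
          (if x.1 = r0 then x else (x.1, φ x.1 x.2)) = (g, c)))
          = (Finset.univ.filter (fun y => φ g y = c)).map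
            ⟨fun y => (g, y), fun a b hab => by simpa using hab⟩ := by
        ext ⟨a, b⟩
        simp only [Finset.mem_filter, Finset.mem_univ, true_and, Finset.mem_map]
        constructor
        · rintro ⟨_, hx⟩
          by_cases ha : a = r0
          · simp only [ha, if_true, Prod.mk.injEq] at hx
            exact absurd hx.1.symm hg
          · simp only [ha, if_false, Prod.mk.injEq] at hx
            obtain ⟨rfl, hx2⟩ := hx
            exact ⟨b, hx2, rfl⟩
        · rintro ⟨y, hy, hyy⟩
          have hyy' : (g, y) = (a, b) := hyy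
          rw [Prod.mk.injEq] at hyy'
          obtain ⟨rfl, rfl⟩ := hyy'
          refine ⟨fun hh => hg (congrArg Prod.fst hh), ?_⟩
          simp [hg, hy]
      rw [this, Finset.card_map, (hφ g hg).2 c hcc]
      split_ifs <;> simp

theorem result :
    (∀ {V : Type} [Fintype V] [DecidableEq V] (G : SimpleGraph V), G.Connected → ∀ m : ℕ,
      (∀ u v, u ≠ v → m % (G.dist u v + 1) = 0 ∨ m % (G.dist u v + 1) = G.dist u v) →
      Stackable (G □ (⊤ : SimpleGraph (Fin m)))) ∧
    (∀ {V : Type} [Fintype V] [DecidableEq V] (G : SimpleGraph V), G.Connected →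
      (∀ u v, G.dist u v ≤ 2) → Stackable (G □ (⊤ : SimpleGraph (Fin 2)))) ∧
    (∀ {V : Type} [Fintype V] [DecidableEq V] (G : SimpleGraph V), G.Connected →
      (∀ u v, G.dist u v ≤ 3) → Stackable (G □ (⊤ : SimpleGraph (Fin 3)))) ∧
    (∀ {V : Type} [Fintype V] [DecidableEq V] (G : SimpleGraph V), G.Connected →
      ∀ N : ℕ, ∃ m, N ≤ m ∧ Stackable (G □ (⊤ : SimpleGraph (Fin m)))) := by
  refine ⟨fun G hG m h => main G hG m h, fun G hG hd => main G hG 2 ?_,
    fun G hG hd => main G hG 3 ?_, fun {V} _ _ G hG N => ?_⟩
  · intro u v huv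
    have h1 := hd u v
    have h2 : 0 < G.dist u v := hG.pos_dist_of_ne huv
    interval_cases G.dist u v <;> simp
  · intro u v huv
    have h1 := hd u v
    have h2 : 0 < G.dist u v := hG.pos_dist_of_ne huv
    interval_cases G.dist u v <;> simp
  · refine ⟨N * ∏ p : V × V, (G.dist p.1 p.2 + 1), ?_, main G hG _ ?_⟩
    · exact Nat.le_mul_of_pos_right N (Finset.prod_pos fun p _ => by omega)
    · intro u v _
      left
      apply Nat.mod_eq_zero_of_dvd
      exact Dvd.dvd.mul_left
        (Finset.dvd_prod_of_mem (fun p : V × V => G.dist p.1 p.2 + 1) (Finset.mem_univ (u, v))) N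

end Pool.Agent.Results.MP_aac8f2_co.CompleteFactor
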